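import Pool.Agent.W300.FT.Stm

/-! Invariance of the law of the process. -/

set_option autoImplicit false

open MeasureTheory ProbabilityTheory

namespace Pool.Agent.W690.FT

open Pool.Agent.W300.FT

noncomputable section

theorem coin_prob' : IsProbabilityMeasure coin := by
  constructor
  simp only [coin, Measure.coe_add, Measure.coe_smul, Pi.add_apply,
    Pi.smul_apply, measure_univ, smul_eq_mul, mul_one, one_div]
  exact ENNReal.inv_two_add_inv_two

theorem relabel {E : Type} (σ : E ≃ E) :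
    MeasurePreserving (fun (ω : E → Bool) e => ω (σ e)) (PC E) (PC E) := by
  have := coin_prob'
  have hm : Measurable (fun (ω : E → Bool) e => ω (σ e)) :=
    measurable_pi_lambda _ fun e => measurable_pi_apply _
  refine ⟨hm, ?_⟩
  refine Measure.eq_infinitePi _ fun S t ht => ?_
  have hpi : MeasurableSet (Set.pi (S : Set E) t) := MeasurableSet.pi S.countable_toSet fun e _ => ht e
  rw [Measure.map_apply hm hpi]
  have hset : (fun (ω : E → Bool) e => ω (σ e)) ⁻¹' (Set.pi (S : Set E) t) =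
      Set.pi ((S.map σ.toEmbedding : Finset E) : Set E) (fun e' => t (σ.symm e')) := by
    ext ω
    simp only [Set.mem_preimage, Set.mem_pi, Finset.mem_coe, Finset.mem_map_equiv]
    constructor
    · intro h i hi
      have := h _ hi
      simpa using this
    · intro h i hi
      have := h (σ i) (by simpa using hi)
      simpa using this
  rw [hset, PC, Measure.infinitePi_pi (fun _ : E => coin) fun e _ => ht _, Finset.prod_map]
  simp

/-- the relabelled bits -/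
def TT {V : Type} {G : SimpleGraph V} (φ : G ≃g G) (ω : V × K → Bool) : V × K → Bool :=
  fun e => ω (φ e.1, e.2)

theorem et_eq {V : Type} {G : SimpleGraph V} (φ : G ≃g G) (ω : V × K → Bool) (c : ℕ × ℕ) (j : ℕ)
    (v : V) : et G (TT φ ω) c j v ↔ et G ω c j (φ v) := by
  unfold et
  refine φ.toEquiv.existsUnique_congr fun u => ?_
  have : G.Adj (φ v) (φ u) ↔ G.Adj v u := φ.map_adj_iff
  simp only [TT]
  rw [← this]
  rfl

theorem ch_eq {V : Type} {G : SimpleGraph V} (φ : G ≃g G) (ω : V × K → Bool) (c : ℕ × ℕ)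
    (γ : ℕ → V) : Ch G (TT φ ω) c γ ↔ Ch G ω c (fun j => φ (γ j)) := by
  unfold Ch Pool.Agent.W300.FT.mt
  refine forall₂_congr fun j _ => ?_
  rw [et_eq, et_eq]
  have : G.Adj (φ (γ j)) (φ (γ (j + 1))) ↔ G.Adj (γ j) (γ (j + 1)) := φ.map_adj_iff
  rw [this]
  rfl

theorem ex_eq {V : Type} {G : SimpleGraph V} (φ : G ≃g G) (v : V) (Q : (ℕ → V) → Prop) :
    (∃ γ : ℕ → V, γ 1 = v ∧ Q (fun j => φ (γ j))) ↔ ∃ γ : ℕ → V, γ 1 = φ v ∧ Q γ := by
  constructor
  · rintro ⟨γ, h1, h2⟩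
    exact ⟨fun j => φ (γ j), by simp [h1], h2⟩
  · rintro ⟨γ, h1, h2⟩
    refine ⟨fun j => φ.symm (γ j), by simp [h1], ?_⟩
    have : (fun j => φ (φ.symm (γ j))) = γ := by
      funext j
      simp
    rw [this]
    exact h2

theorem psi_eq {V : Type} {G : SimpleGraph V} (φ : G ≃g G) (ω : V × K → Bool) (v : V) (k : K) :
    Psi G (TT φ ω) v k = Psi G ω (φ v) k := by
  have e1 : (∃ γ : ℕ → V, γ 1 = v ∧ Ch G (TT φ ω) k.1 γ) ↔
      ∃ γ : ℕ → V, γ 1 = φ v ∧ Ch G ω k.1 γ := by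
    rw [← ex_eq φ v (fun γ => Ch G ω k.1 γ)]
    simp only [ch_eq]
  have e2 : (∃ γ : ℕ → V, γ 1 = v ∧ Ch G (TT φ ω) k.1 γ ∧ fm (TT φ ω) k.1 k.2.2 γ = 1) ↔
      ∃ γ : ℕ → V, γ 1 = φ v ∧ Ch G ω k.1 γ ∧ fm ω k.1 k.2.2 γ = 1 := by
    rw [← ex_eq φ v (fun γ => Ch G ω k.1 γ ∧ fm ω k.1 k.2.2 γ = 1)]
    simp only [ch_eq]
    rfl
  have e3 := et_eq φ ω k.1 k.2.1 v
  unfold Psi
  by_cases h0 : k.2.2 = 0
  · rw [if_pos h0, if_pos h0]
    rfl
  rw [if_neg h0, if_neg h0]
  by_cases h1 : k.2.2 = 1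
  · rw [if_pos h1, if_pos h1]
    exact decide_eq_decide.2 e3
  rw [if_neg h1, if_neg h1]
  by_cases h2 : k.2.1 = 1 ∧ ∃ γ : ℕ → V, γ 1 = v ∧ Ch G (TT φ ω) k.1 γ
  · rw [if_pos h2, if_pos ⟨h2.1, e1.1 h2.2⟩]
    exact decide_eq_decide.2 e2
  · rw [if_neg h2, if_neg fun h => h2 ⟨h.1, e1.2 h.2⟩]
    rfl

theorem inv (hm : S_MEAS) : S_INV := by
  intro V G hV φ
  have hP : Measurable (Psi G) := (hm V G Set.univ hV).1
  have hS : Measurable (fun (x : V → K → Bool) (v : V) => x (φ v)) :=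
    measurable_pi_lambda _ fun v => measurable_pi_apply _
  have hT : MeasurePreserving (TT φ) (PC (V × K)) (PC (V × K)) :=
    relabel (φ.toEquiv.prodCongr (Equiv.refl K))
  unfold muX
  rw [Measure.map_map hS hP]
  have e : (fun (x : V → K → Bool) (v : V) => x (φ v)) ∘ Psi G = Psi G ∘ TT φ := by
    funext ω v k
    exact (psi_eq φ ω v k).symm
  rw [e, ← Measure.map_map hP hT.measurable, hT.map_eq]

end

end Pool.Agent.W690.FT
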