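import Pool.Agent.W300.FT.Stm

/-! Locality and finitary maps. -/

set_option autoImplicit false

open MeasureTheory ProbabilityTheory Filter Topology

namespace Pool.Agent.W690.FT

open Pool.Agent.W300.FT

noncomputable section

theorem mix_congr {V : Type} (N : Set V) (y y' p : V → unitInterval) (h : ∀ u ∈ N, y u = y' u) :
    mix N y p = mix N y' p := by
  funext u
  unfold mix
  by_cases hu : u ∈ N
  · rw [if_pos hu, if_pos hu, h u hu]
  · rw [if_neg hu, if_neg hu]

theorem loc2 : S_LOC2 := by
  intro V G F m v y y' h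
  constructor
  · unfold Loc
    simp only [Set.mem_ofPred_eq, mix_congr _ y y' _ h]
  · funext k
    unfold Gf
    simp only [mix_congr _ y y' _ h]

theorem loc4 (h1 : S_LOC1) : S_LOC4 := by
  intro V G F hV hF v hfin ε hε
  have hprob : IsProbabilityMeasure (PI V) := by
    unfold PI
    infer_instance
  let A : ℕ → Set (V → unitInterval) := fun r =>
    {y | ∀ y' : V → unitInterval, (∀ u : V, G.dist v u ≤ r → y' u = y u) → F y' v = F y v}
  have hmono : Monotone A := by
    intro r r' hr y hy y' hy'
    exact hy y' fun u hu => hy' u (hu.trans hr)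
  have hsub : ∀ r, A r ⊆ Loc G F r v := by
    intro r y hy
    have e : ∀ q : V → unitInterval, F (mix (Bal G r v) y q) v = F y v := by
      intro q
      refine hy _ fun u hu => ?_
      have hu' : u ∈ Bal G r v := hu
      unfold mix
      rw [if_pos hu']
    have e2 : ∀ᵐ p ∂((PI V).prod (PI V)),
        F (mix (Bal G r v) y p.1) v = F (mix (Bal G r v) y p.2) v :=
      Eventually.of_forall fun p => by rw [e, e]
    exact e2
  have hU : PI V (⋃ r, A r) = 1 := by
    have h2 : PI V (⋃ r, A r)ᶜ = 0 := by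
      have h3 : ∀ᵐ y ∂(PI V), y ∈ ⋃ r, A r := by
        filter_upwards [hfin] with y hy
        obtain ⟨r, hr⟩ := hy
        exact Set.mem_iUnion.2 ⟨r, hr⟩
      exact h3
    refine le_antisymm prob_le_one ?_
    have h4 : (1 : ENNReal) = PI V (Set.univ : Set (V → unitInterval)) := measure_univ.symm
    calc (1 : ENNReal) = PI V ((⋃ r, A r) ∪ (⋃ r, A r)ᶜ) := by rw [Set.union_compl_self, ← h4]
      _ ≤ PI V (⋃ r, A r) + PI V (⋃ r, A r)ᶜ := measure_union_le _ _
      _ = PI V (⋃ r, A r) := by rw [h2, add_zero]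
  have hlim : Tendsto (fun r => ε + PI V (A r)) atTop (𝓝 (ε + 1)) := by
    have := tendsto_measure_iUnion_atTop (μ := PI V) hmono
    rw [hU] at this
    exact tendsto_const_nhds.add this
  have h5 : (1 : ENNReal) < ε + 1 := by
    rw [add_comm]
    exact ENNReal.lt_add_right ENNReal.one_ne_top hε.ne'
  obtain ⟨m, hm⟩ := (hlim.eventually (lt_mem_nhds h5)).exists
  refine ⟨m, ?_⟩
  have hmeas := (h1 V G F hV hF m v).1
  rw [prob_compl_eq_one_sub hmeas]
  by_contra hc
  have h6 : ε + PI V (Loc G F m v) ≤ 1 := by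
    calc ε + PI V (Loc G F m v) ≤ (1 - PI V (Loc G F m v)) + PI V (Loc G F m v) :=
          add_le_add (not_lt.1 hc) le_rfl
      _ = 1 := tsub_add_cancel_of_le prob_le_one
  exact absurd (hm.trans_le ((add_le_add le_rfl (measure_mono (hsub m))).trans h6)) (lt_irrefl _)

end

end Pool.Agent.W690.FT
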