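import Pool.Agent.W300.FT.Stm

/-! A random involution of the coordinates, determined by the coordinates which it fixes,
preserves the product measure. -/

set_option autoImplicit false

open MeasureTheory ProbabilityTheory

namespace Pool.Agent.W690.FT

noncomputable section

open Classical in
/-- restriction to the coordinates in `Θ` -/
def rr {E : Type} (Θ : Set E) (w : E → Bool) : E → Bool := fun e => if e ∈ Θ then w e else false

/-- the sigma algebra of one coordinate -/
abbrev mc {E : Type} (e : E) : MeasurableSpace (E → Bool) :=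
  MeasurableSpace.comap (fun w : E → Bool => w e) inferInstance

theorem meas_rr {E : Type} (Θ : Set E) : @Measurable _ _ (⨆ e ∈ Θ, mc e) MeasurableSpace.pi (rr Θ) := by
  refine @measurable_pi_lambda _ _ _ (⨆ e ∈ Θ, mc e) _ _ fun e => ?_
  unfold rr
  by_cases he : e ∈ Θ
  · simp only [if_pos he]
    have h1 : @Measurable _ _ (mc e) _ (fun w : E → Bool => w e) := comap_measurable _
    exact h1.mono (le_iSup₂ (f := fun (e : E) (_ : e ∈ Θ) => mc e) e he) le_rfl
  · simp only [if_neg he]
    exact @measurable_const _ _ _ (⨆ e ∈ Θ, mc e) _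

theorem meas_of_dep {E : Type} (Θ : Set E) (A : Set (E → Bool)) (hA : MeasurableSet A)
    (hd : ∀ w w', (∀ e ∈ Θ, w e = w' e) → (w ∈ A ↔ w' ∈ A)) :
    MeasurableSet[⨆ e ∈ Θ, mc e] A := by
  have h1 : A = rr Θ ⁻¹' A := by
    ext w
    refine hd w _ fun e he => ?_
    simp [rr, he]
  rw [h1]
  exact meas_rr Θ hA

theorem indep_of_dep {E : Type} (ν : Measure Bool) [IsProbabilityMeasure ν] (Θ : Set E)
    (A D : Set (E → Bool)) (hA : MeasurableSet A) (hD : MeasurableSet D)
    (hd : ∀ w w', (∀ e ∈ Θ, w e = w' e) → (w ∈ A ↔ w' ∈ A))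
    (hd' : ∀ w w', (∀ e ∉ Θ, w e = w' e) → (w ∈ D ↔ w' ∈ D)) :
    Measure.infinitePi (fun _ : E => ν) (A ∩ D) =
      Measure.infinitePi (fun _ : E => ν) A * Measure.infinitePi (fun _ : E => ν) D := by
  have hi : iIndepFun (fun (e : E) (w : E → Bool) => w e) (Measure.infinitePi (fun _ : E => ν)) :=
    iIndepFun_infinitePi (P := fun _ : E => ν) (X := fun _ (b : Bool) => b)
      (fun _ => measurable_id)
  have hi2 : Indep (⨆ e ∈ Θ, mc e) (⨆ e ∈ Θᶜ, mc e) (Measure.infinitePi (fun _ : E => ν)) := by
    refine indep_iSup_of_disjoint (m := fun e => mc e) (fun e => ?_) hi disjoint_compl_right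
    exact (measurable_pi_apply e).comap_le
  exact (Indep_iff _ _ _).1 hi2 A D (meas_of_dep Θ A hA hd)
    (meas_of_dep Θᶜ D hD fun w w' h => hd' w w' fun e he => h e he)

theorem swapG {E : Type} [Countable E] (ν : Measure Bool) [IsProbabilityMeasure ν] (Θ : Set E)
    (s : (E → Bool) → E → E) (hm : ∀ e e', MeasurableSet {w | s w e = e'})
    (hdep : ∀ w w', (∀ e ∈ Θ, w e = w' e) → s w = s w')
    (hinv : ∀ w e, s w (s w e) = e) (hfix : ∀ w, ∀ e ∈ Θ, s w e = e) :
    MeasurePreserving (fun (w : E → Bool) (e : E) => w (s w e))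
      (Measure.infinitePi fun _ : E => ν) (Measure.infinitePi fun _ : E => ν) := by
  classical
  set μ : Measure (E → Bool) := Measure.infinitePi fun _ : E => ν with hμ
  have hτ : Measurable (fun (w : E → Bool) (e : E) => w (s w e)) := by
    refine measurable_pi_lambda _ fun e => ?_
    intro t ht
    have h1 : (fun w : E → Bool => w (s w e)) ⁻¹' t =
        ⋃ e', {w | s w e = e'} ∩ (fun w : E → Bool => w e') ⁻¹' t := by
      ext w
      simp
    rw [h1]
    exact MeasurableSet.iUnion fun e' => (hm e e').inter (measurable_pi_apply e' ht)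
  refine ⟨hτ, ?_⟩
  refine Measure.eq_infinitePi _ fun S t ht => ?_
  have hpi : MeasurableSet (Set.pi (S : Set E) t) := MeasurableSet.pi S.countable_toSet fun e _ => ht e
  rw [Measure.map_apply hτ hpi]
  -- the pieces
  let A : (S → E) → Set (E → Bool) := fun σ => {w | ∀ e : S, s w e = σ e}
  let B : Set (E → Bool) := {w | ∀ e ∈ S, e ∈ Θ → w e ∈ t e}
  have hA : ∀ σ, MeasurableSet (A σ) := fun σ => by
    have : A σ = ⋂ e : S, {w | s w e = σ e} := by
      ext w
      simp [A]
    rw [this]
    exact MeasurableSet.iInter fun e => hm e (σ e)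
  have hB : MeasurableSet B := by
    have : B = ⋂ e ∈ S, {w : E → Bool | e ∈ Θ → w e ∈ t e} := by
      ext w
      simp [B]
    rw [this]
    refine Finset.measurableSet_biInter S fun e _ => ?_
    by_cases he : e ∈ Θ
    · simp only [he, forall_const]
      exact measurable_pi_apply e (ht e)
    · simp [he]
  have hAd : Pairwise (Function.onFun Disjoint A) := by
    intro σ σ' hne
    rw [Function.onFun, Set.disjoint_left]
    intro w hw hw'
    exact hne (funext fun e => (hw e).symm.trans (hw' e))
  have hAu : (⋃ σ, A σ) = Set.univ := by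
    ext w
    simp only [Set.mem_iUnion, Set.mem_univ, iff_true]
    exact ⟨fun e => s w e, fun e => rfl⟩
  set c : ENNReal := ∏ e ∈ S.filter (fun e => e ∉ Θ), ν (t e) with hc
  have key : ∀ σ, μ (A σ ∩ ((fun (w : E → Bool) (e : E) => w (s w e)) ⁻¹' (Set.pi (S : Set E) t))) =
      μ (A σ ∩ B) * c := by
    intro σ
    by_cases hne : (A σ).Nonempty
    · obtain ⟨w₀, hw₀⟩ := hne
      let D : Set (E → Bool) := Set.pi (((S.filter (fun e => e ∉ Θ)).image (s w₀) : Finset E) : Set E)
        (fun e' => t (s w₀ e'))
      have hD : MeasurableSet D := MeasurableSet.pi (Finset.countable_toSet _) fun e _ => ht _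
      have hout : ∀ e, e ∉ Θ → s w₀ e ∉ Θ := by
        intro e he h
        have h1 := hfix w₀ _ h
        rw [hinv] at h1
        exact he (h1 ▸ h)
      have hset : A σ ∩ ((fun (w : E → Bool) (e : E) => w (s w e)) ⁻¹' (Set.pi (S : Set E) t)) =
          (A σ ∩ B) ∩ D := by
        ext w
        constructor
        · rintro ⟨h1, h2⟩
          have h2' : ∀ e ∈ S, w (s w e) ∈ t e := h2
          refine ⟨⟨h1, fun e he heΘ => ?_⟩, ?_⟩
          · have := h2' e he
            rwa [hfix w e heΘ] at this
          · intro e' he'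
            obtain ⟨e, he, rfl⟩ := Finset.mem_image.1 (Finset.mem_coe.1 he')
            have heS := (Finset.mem_filter.1 he).1
            have h3 := h2' e heS
            have h4 : s w e = s w₀ e := (h1 ⟨e, heS⟩).trans (hw₀ ⟨e, heS⟩).symm
            rw [h4] at h3
            simpa [hinv] using h3
        · rintro ⟨⟨h1, h2⟩, h3⟩
          refine ⟨h1, fun e he => ?_⟩
          have heS : e ∈ S := he
          have h4 : s w e = s w₀ e := (h1 ⟨e, heS⟩).trans (hw₀ ⟨e, heS⟩).symm
          change w (s w e) ∈ t e
          by_cases heΘ : e ∈ Θ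
          · rw [hfix w e heΘ]
            exact h2 e heS heΘ
          · rw [h4]
            have h5 := h3 (s w₀ e) (Finset.mem_coe.2 (Finset.mem_image.2
              ⟨e, Finset.mem_filter.2 ⟨heS, heΘ⟩, rfl⟩))
            simpa [hinv] using h5
      rw [hset]
      rw [indep_of_dep ν Θ (A σ ∩ B) D ((hA σ).inter hB) hD]
      · congr 1
        rw [Measure.infinitePi_pi (fun _ : E => ν) fun e _ => ht _, hc, Finset.prod_image]
        · refine Finset.prod_congr rfl fun e _ => ?_
          rw [hinv]
        · intro e _ e' _ h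
          have := congrArg (s w₀) h
          rwa [hinv, hinv] at this
      · intro w w' h
        have h1 := hdep w w' h
        constructor
        · rintro ⟨h2, h3⟩
          refine ⟨fun e => by rw [← h1]; exact h2 e, fun e he heΘ => ?_⟩
          rw [← h e heΘ]
          exact h3 e he heΘ
        · rintro ⟨h2, h3⟩
          refine ⟨fun e => by rw [h1]; exact h2 e, fun e he heΘ => ?_⟩
          rw [h e heΘ]
          exact h3 e he heΘ
      · intro w w' h
        have h1 : ∀ e ∈ (((S.filter (fun e => e ∉ Θ)).image (s w₀) : Finset E) : Set E),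
            w e = w' e := by
          intro e' he'
          obtain ⟨e, he, rfl⟩ := Finset.mem_image.1 (Finset.mem_coe.1 he')
          exact h _ (hout e (Finset.mem_filter.1 he).2)
        constructor
        · intro h2 e he
          rw [← h1 e he]
          exact h2 e he
        · intro h2 e he
          rw [h1 e he]
          exact h2 e he
    · rw [Set.not_nonempty_iff_eq_empty.1 hne]
      simp
  have hsum : ∀ T : Set (E → Bool), MeasurableSet T → μ T = ∑' σ, μ (A σ ∩ T) := by
    intro T hT
    have h1 : T = ⋃ σ, A σ ∩ T := by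
      rw [← Set.iUnion_inter, hAu, Set.univ_inter]
    conv_lhs => rw [h1]
    refine measure_iUnion ?_ fun σ => (hA σ).inter hT
    intro σ σ' hne
    exact (hAd hne).mono Set.inter_subset_left Set.inter_subset_left
  rw [hsum _ (hτ hpi)]
  simp only [key]
  rw [ENNReal.tsum_mul_right, ← hsum B hB]
  have hBm : μ B = ∏ e ∈ S.filter (fun e => e ∈ Θ), ν (t e) := by
    have : B = Set.pi ((S.filter (fun e => e ∈ Θ) : Finset E) : Set E) t := by
      ext w
      simp only [B, Set.mem_ofPred_eq, Set.mem_pi, Finset.coe_filter]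
      exact ⟨fun h e he => h e he.1 he.2, fun h e he he' => h e ⟨he, he'⟩⟩
    rw [this, hμ, Measure.infinitePi_pi (fun _ : E => ν) fun e _ => ht e]
  rw [hBm, hc, Finset.prod_filter_mul_prod_filter_not]

theorem coin_prob : IsProbabilityMeasure Pool.Agent.W300.FT.coin := by
  constructor
  simp only [Pool.Agent.W300.FT.coin, Measure.coe_add, Measure.coe_smul, Pi.add_apply,
    Pi.smul_apply, measure_univ, smul_eq_mul, mul_one, one_div]
  exact ENNReal.inv_two_add_inv_two

theorem swap : Pool.Agent.W300.FT.S_SWAP := by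
  intro E Θ s hE hinv hdep hfix hm
  have := coin_prob
  exact swapG Pool.Agent.W300.FT.coin Θ s hm hdep hinv hfix

end

end Pool.Agent.W690.FT
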